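import Pool.Agent.Helper6.TF.Entry

/-!
# Bounds for the weight on the contour
-/

namespace Pool.Agent.Helper9.TF

open Complex Finset MeasureTheory intervalIntegral Set
open Pool.Agent.Helper9.TB

lemma norm_exp_I_mul' (z : ℂ) : ‖Complex.exp (z * I)‖ = Real.exp (-z.im) := by
  rw [Complex.norm_exp]; simp

lemma norm_exp_neg_I_mul' (z : ℂ) : ‖Complex.exp (-z * I)‖ = Real.exp z.im := by
  rw [Complex.norm_exp]; simp

lemma norm_sin_le' (z : ℂ) : ‖Complex.sin z‖ ≤ Real.exp |z.im| := by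
  rw [Complex.sin, norm_div, norm_mul, Complex.norm_I, mul_one]
  have h1 := norm_sub_le (Complex.exp (-z * I)) (Complex.exp (z * I))
  rw [norm_exp_neg_I_mul', norm_exp_I_mul'] at h1
  have h2 : Real.exp z.im ≤ Real.exp |z.im| := Real.exp_le_exp.2 (le_abs_self _)
  have h3 : Real.exp (-z.im) ≤ Real.exp |z.im| := Real.exp_le_exp.2 (neg_le_abs _)
  have h4 : ‖(2 : ℂ)‖ = 2 := by simp
  rw [h4, div_le_iff₀ (by norm_num)]
  linarith

lemma norm_dLy_le (y : ℂ) : ‖dLy y‖ ≤ 4 * Real.pi * Real.exp (2 * Real.pi * |y.im|) := by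
  unfold dLy
  rw [norm_mul, norm_mul]
  have h1 := norm_sin_le' (2 * Real.pi * y)
  have h2 : (2 * Real.pi * y : ℂ).im = 2 * Real.pi * y.im := by
    rw [show (2 * Real.pi * y : ℂ) = ((2 * Real.pi : ℝ) : ℂ) * y by push_cast; ring,
      Complex.im_ofReal_mul]
  rw [h2, abs_mul, abs_of_pos (by positivity)] at h1
  have h3 : ‖(4 : ℂ)‖ = 4 := by simp
  have h4 : ‖(Real.pi : ℂ)‖ = Real.pi := by
    rw [Complex.norm_real, Real.norm_of_nonneg Real.pi_pos.le]
  rw [h3, h4]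
  gcongr

lemma norm_gauss (N a : ℕ) (y : ℂ) : ‖Complex.exp (Real.pi * I * (a * N) * y ^ 2)‖ =
    Real.exp (-(2 * Real.pi * a * N * (y.re * y.im))) := by
  rw [Complex.norm_exp]
  congr 1
  have h : (Real.pi * I * (a * N) * y ^ 2 : ℂ) = ((Real.pi * a * N : ℝ) : ℂ) * (I * y ^ 2) := by
    push_cast; ring
  rw [h, Complex.re_ofReal_mul]
  simp [pow_two]
  ring

lemma DN_flat {N : ℕ} {h : ℝ} (hN : 1 ≤ N) (hh : 1 ≤ N * h) {y : ℂ} (hy : y.im = -h) :
    4 ≤ ‖DN N y‖ := by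
  rw [DN_eq hN]
  set z : ℂ := 2 * Real.pi * N * y with hz
  have hzim : z.im = -(2 * Real.pi * (N * h)) := by
    rw [hz, show (2 * Real.pi * N * y : ℂ) = ((2 * Real.pi * N : ℝ) : ℂ) * y by push_cast; ring,
      Complex.im_ofReal_mul, hy]
    ring
  have h1 : ‖((-1 : ℂ)) ^ N * (2 * Complex.cos z)‖ = ‖Complex.exp (z * I) + Complex.exp (-z * I)‖ := by
    rw [norm_mul, norm_pow, norm_neg, norm_one, one_pow, one_mul, Complex.cos]
    congr 1
    ring
  have h2 : Real.exp (-z.im) - Real.exp z.im ≤ ‖Complex.exp (z * I) + Complex.exp (-z * I)‖ := by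
    have := norm_sub_norm_le (Complex.exp (z * I)) (-Complex.exp (-z * I))
    rw [norm_neg, norm_exp_I_mul', norm_exp_neg_I_mul', sub_neg_eq_add] at this
    exact this
  rw [hzim, neg_neg] at h2
  have h3 : Real.exp (-(2 * Real.pi * (N * h))) ≤ 1 := by
    rw [Real.exp_le_one_iff]
    have := Real.pi_pos
    nlinarith
  have h4 : 2 * Real.pi * (N * h) + 1 ≤ Real.exp (2 * Real.pi * (N * h)) := Real.add_one_le_exp _
  have h5 : 6 ≤ 2 * Real.pi * (N * h) := by
    have := Real.pi_gt_three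
    nlinarith
  have h6 := norm_sub_norm_le (((-1 : ℂ)) ^ N * (2 * Complex.cos z)) (-2)
  rw [sub_neg_eq_add, norm_neg, h1] at h6
  have h7 : ‖(2 : ℂ)‖ = 2 := by simp
  rw [h7] at h6
  rw [add_comm]
  linarith

lemma cos_add_nat_pi' (z : ℂ) (N : ℕ) : Complex.cos (z + N * Real.pi) = (-1) ^ N * Complex.cos z := by
  induction N with
  | zero => simp
  | succ n ih =>
    rw [show z + ((n + 1 : ℕ) : ℂ) * Real.pi = (z + n * Real.pi) + Real.pi by push_cast; ring,
      Complex.cos_add_pi, ih, pow_succ]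
    ring

lemma cos_sub_nat_pi' (z : ℂ) (N : ℕ) : Complex.cos (z - N * Real.pi) = (-1) ^ N * Complex.cos z := by
  have h := cos_add_nat_pi' (z - N * Real.pi) N
  rw [sub_add_cancel] at h
  rw [h, ← mul_assoc, neg_one_pow_sq, one_mul]

lemma DN_side {N : ℕ} (hN : 1 ≤ N) {y : ℂ} (hy : |y.re| = 1 / 2) : 4 ≤ ‖DN N y‖ := by
  rw [DN_eq hN]
  have hcos : Complex.cos (2 * Real.pi * N * y) = (-1) ^ N * Complex.cosh ((2 * Real.pi * N * y.im : ℝ) : ℂ) := by
    rcases (abs_eq (by norm_num)).1 hy with h1 | h1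
    · have e : (2 * Real.pi * N * y : ℂ) = ((2 * Real.pi * N * y.im : ℝ) : ℂ) * I + N * Real.pi := by
        conv_lhs => rw [← Complex.re_add_im y, h1]
        push_cast; ring
      rw [e, cos_add_nat_pi', Complex.cos_mul_I]
    · have e : (2 * Real.pi * N * y : ℂ) = ((2 * Real.pi * N * y.im : ℝ) : ℂ) * I - N * Real.pi := by
        conv_lhs => rw [← Complex.re_add_im y, h1]
        push_cast; ring
      rw [e, cos_sub_nat_pi', Complex.cos_mul_I]
  rw [hcos]
  have e2 : (2 : ℂ) + (-1) ^ N * (2 * ((-1) ^ N * Complex.cosh ((2 * Real.pi * N * y.im : ℝ) : ℂ))) =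
      ((2 + 2 * Real.cosh (2 * Real.pi * N * y.im) : ℝ) : ℂ) := by
    have := neg_one_pow_sq N
    rw [← Complex.ofReal_cosh]
    push_cast
    linear_combination (2 * Complex.cosh (2 * Real.pi * N * y.im)) * this
  rw [e2, Complex.norm_real, Real.norm_eq_abs]
  have := Real.one_le_cosh (2 * Real.pi * N * y.im)
  rw [abs_of_nonneg (by linarith)]
  linarith

/-- the general bound of the weight -/
lemma om_le {N a : ℕ} {h : ℝ} {y : ℂ} (hD : 4 ≤ ‖DN N y‖) (hre : |y.re| ≤ 1 / 2)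
    (h1 : -h ≤ y.im) (h2 : y.im ≤ 0) :
    ‖om N a y‖ ≤ Real.pi * Real.exp (2 * Real.pi * h) * Real.exp (Real.pi * a * N * h) := by
  unfold om
  rw [norm_div, norm_mul, norm_gauss]
  have hDp : 0 < ‖DN N y‖ := by linarith
  rw [div_le_iff₀ hDp]
  have hh : 0 ≤ h := by linarith
  have him : |y.im| ≤ h := by rw [abs_le]; exact ⟨h1, by linarith⟩
  have e1 : Real.exp (-(2 * Real.pi * a * N * (y.re * y.im))) ≤ Real.exp (Real.pi * a * N * h) := by
    rw [Real.exp_le_exp]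
    have h3 : -(y.re * y.im) ≤ h / 2 := by
      have h4 : -(y.re * y.im) ≤ |y.re * y.im| := neg_le_abs _
      rw [abs_mul] at h4
      have h5 : |y.re| * |y.im| ≤ 1 / 2 * h := mul_le_mul hre him (abs_nonneg _) (by norm_num)
      linarith
    have h6 : (0 : ℝ) ≤ 2 * Real.pi * a * N := by positivity
    nlinarith [mul_le_mul_of_nonneg_left h3 h6]
  have e2 : ‖dLy y‖ ≤ 4 * Real.pi * Real.exp (2 * Real.pi * h) := by
    refine (norm_dLy_le y).trans ?_
    gcongr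
  calc Real.exp (-(2 * Real.pi * a * N * (y.re * y.im))) * ‖dLy y‖
      ≤ Real.exp (Real.pi * a * N * h) * (4 * Real.pi * Real.exp (2 * Real.pi * h)) :=
        mul_le_mul e1 e2 (norm_nonneg _) (Real.exp_pos _).le
    _ = Real.pi * Real.exp (2 * Real.pi * h) * Real.exp (Real.pi * a * N * h) * 4 := by ring
    _ ≤ Real.pi * Real.exp (2 * Real.pi * h) * Real.exp (Real.pi * a * N * h) * ‖DN N y‖ := by
        gcongr

lemma pt_re (ξ h : ℝ) : (pt ξ h).re = ξ := by unfold pt; simp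
lemma pt_im (ξ h : ℝ) : (pt ξ h).im = -h := by unfold pt; simp

lemma exponent_eq {d : ℝ} {a : ℕ} (ha : 10 ≤ a) (N : ℕ) :
    Real.pi * a * N * (d / a ^ 2) = N * (Real.pi * d / a) := by
  have : (a : ℝ) ≠ 0 := by
    have : 0 < a := by omega
    positivity
  field_simp

/-- the choice of `N0` -/
lemma N0_exists {h : ℝ} (hh : 0 < h) : ∃ N0 : ℕ, ∀ N : ℕ, N0 ≤ N → 1 ≤ N ∧ 1 ≤ N * h := by
  refine ⟨⌈1 / h⌉₊ + 1, fun N hN => ⟨by omega, ?_⟩⟩
  have h1 : 1 / h ≤ ⌈1 / h⌉₊ := Nat.le_ceil _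
  have h2 : ((⌈1 / h⌉₊ : ℕ) : ℝ) + 1 ≤ N := by exact_mod_cast hN
  have h3 : 1 / h ≤ N := by linarith
  rwa [div_le_iff₀ hh] at h3

lemma hd_pos {d : ℝ} (hd : d = 1 ∨ d = 2) {a : ℕ} (ha : 10 ≤ a) : 0 < d / a ^ 2 := by
  have : 0 < a := by omega
  rcases hd with rfl | rfl <;> positivity

theorem om_flat_le {d : ℝ} (hd : d = 1 ∨ d = 2) {a : ℕ} (ha : 10 ≤ a) :
    ∃ C : ℝ, 0 < C ∧ ∃ N0 : ℕ, ∀ N : ℕ, N0 ≤ N → ∀ ξ : ℝ, |ξ| ≤ 1 / 2 →
      ‖om N a (pt ξ (d / a ^ 2))‖ ≤ C * Real.exp (N * (Real.pi * d / a)) := by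
  have hh := hd_pos hd ha
  obtain ⟨N0, hN0⟩ := N0_exists hh
  refine ⟨Real.pi * Real.exp (2 * Real.pi * (d / a ^ 2)), by positivity, N0, fun N hN ξ hξ => ?_⟩
  obtain ⟨h1, h2⟩ := hN0 N hN
  rw [← exponent_eq ha]
  apply om_le (DN_flat h1 h2 (pt_im _ _))
  · rwa [pt_re]
  · rw [pt_im]
  · rw [pt_im]; linarith

/-- bound on the sides -/
lemma om_side_le {d : ℝ} {a : ℕ} (ha : 10 ≤ a) {N : ℕ} (h1 : 1 ≤ N)
    {y : ℂ} (hre : |y.re| = 1 / 2) (h3 : -(d / a ^ 2) ≤ y.im) (h4 : y.im ≤ 0) :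
    ‖om N a y‖ ≤ Real.pi * Real.exp (2 * Real.pi * (d / a ^ 2)) *
      Real.exp (N * (Real.pi * d / a)) := by
  rw [← exponent_eq ha]
  exact om_le (DN_side h1 hre) hre.le h3 h4

lemma om_cont {N a : ℕ} {h : ℝ} (hh : 0 < h) : ContinuousOn (om N a) (PS h) := by
  intro y hy
  apply ContinuousAt.continuousWithinAt
  unfold om
  apply ContinuousAt.div
  · unfold dLy; fun_prop
  · unfold DN Ly
    fun_prop
  · exact DN_ne hh hy

lemma ver_le {f : ℂ → ℂ} {x h B : ℝ} (hh : 0 < h)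
    (hf : ∀ t : ℝ, -h ≤ t → t ≤ 0 → ‖f (x + t * I)‖ ≤ B) : ‖ver f x (-h) 0‖ ≤ B * h := by
  unfold ver
  have h1 := intervalIntegral.norm_integral_le_of_norm_le_const (a := -h) (b := 0)
    (f := fun t : ℝ => f (x + t * I)) (C := B) (by
      intro t ht
      rw [uIoc_of_le (by linarith)] at ht
      exact hf t ht.1.le ht.2)
  rw [show |0 - -h| = h by rw [zero_sub, neg_neg, abs_of_pos hh]] at h1
  exact h1

/-- the same with the hypothesis on the path only -/
theorem PI_le' {d : ℝ} (hd : d = 1 ∨ d = 2) {a : ℕ} (ha : 10 ≤ a) :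
    ∃ C : ℝ, 0 < C ∧ ∃ N0 : ℕ, ∀ N : ℕ, N0 ≤ N → ∀ G : ℂ → ℂ, Continuous G → ∀ M : ℝ,
      (∀ y ∈ PS (d / a ^ 2), ‖G y‖ ≤ M) →
      ‖PI (fun y => om N a y * G y) (d / a ^ 2)‖ ≤ C * Real.exp (N * (Real.pi * d / a)) * M := by
  have hh := hd_pos hd ha
  obtain ⟨N0, hN0⟩ := N0_exists hh
  set h := d / a ^ 2 with hdef
  set K := Real.pi * Real.exp (2 * Real.pi * h) with hK
  refine ⟨(2 * h + 1) * K, by positivity, N0, fun N hN G _ M hM => ?_⟩
  obtain ⟨h1, h2⟩ := hN0 N hN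
  have hM0 : 0 ≤ M := (norm_nonneg _).trans (hM _ (mem_PS_ver hh.le ab2 0 right_mem_uIcc))
  set E := Real.exp (N * (Real.pi * d / a)) with hE
  have hE0 : 0 < E := Real.exp_pos _
  have hK0 : 0 < K := by positivity
  have side : ∀ x : ℝ, |x| = 1 / 2 → ∀ t : ℝ, -h ≤ t → t ≤ 0 →
      ‖(fun y => om N a y * G y) (x + t * I)‖ ≤ K * E * M := by
    intro x hx t ht1 ht2
    simp only
    rw [norm_mul]
    apply mul_le_mul
    · apply om_side_le ha h1
      · rw [re_pt]; exact hx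
      · rw [im_pt]; exact ht1
      · rw [im_pt]; exact ht2
    · apply hM
      right
      rw [re_pt, im_pt]
      exact ⟨hx, ht1, ht2⟩
    · exact norm_nonneg _
    · positivity
  have hv1 := ver_le (f := fun y => om N a y * G y) (x := -1 / 2) hh (side _ ab1)
  have hv2 := ver_le (f := fun y => om N a y * G y) (x := 1 / 2) hh (side _ ab2)
  have hho : ‖hor (fun y => om N a y * G y) (-1 / 2) (1 / 2) (-h)‖ ≤ K * E * M * 1 := by
    unfold hor
    have h3 := intervalIntegral.norm_integral_le_of_norm_le_const (a := -1 / 2) (b := 1 / 2)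
      (f := fun x : ℝ => (fun y => om N a y * G y) (x + (-h : ℝ) * I)) (C := K * E * M) (by
        intro x hx
        rw [uIoc_of_le (by norm_num)] at hx
        simp only
        have hx2 : |x| ≤ 1 / 2 := by rw [abs_le]; exact ⟨by linarith [hx.1], hx.2⟩
        rw [norm_mul]
        apply mul_le_mul
        · rw [hE, ← exponent_eq ha]
          apply om_le (DN_flat h1 h2 (by rw [im_pt]))
          · rw [re_pt]; exact hx2
          · rw [im_pt]
          · rw [im_pt]; linarith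
        · apply hM
          left
          rw [re_pt, im_pt]
          exact ⟨hx2, rfl⟩
        · exact norm_nonneg _
        · positivity)
    rw [show |(1 / 2 : ℝ) - -1 / 2| = 1 by norm_num] at h3
    exact h3
  unfold PI
  calc _ ≤ ‖-(I * ver (fun y => om N a y * G y) (-1 / 2) (-h) 0)‖ +
        ‖hor (fun y => om N a y * G y) (-1 / 2) (1 / 2) (-h)‖ +
        ‖I * ver (fun y => om N a y * G y) (1 / 2) (-h) 0‖ := norm_add₃_le
    _ ≤ K * E * M * h + K * E * M * 1 + K * E * M * h := by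
        rw [norm_neg, norm_mul, norm_mul, Complex.norm_I, one_mul, one_mul]
        exact add_le_add (add_le_add hv1 hho) hv2
    _ = (2 * h + 1) * K * E * M := by ring

theorem PI_le {d : ℝ} (hd : d = 1 ∨ d = 2) {a : ℕ} (ha : 10 ≤ a) :
    ∃ C : ℝ, 0 < C ∧ ∃ N0 : ℕ, ∀ N : ℕ, N0 ≤ N → ∀ G : ℂ → ℂ, Continuous G → ∀ M : ℝ,
      (∀ y : ℂ, |y.re| ≤ 1 / 2 → -(d / a ^ 2) ≤ y.im → y.im ≤ 0 → ‖G y‖ ≤ M) →
      ‖PI (fun y => om N a y * G y) (d / a ^ 2)‖ ≤ C * Real.exp (N * (Real.pi * d / a)) * M := by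
  obtain ⟨C, hC, N0, h0⟩ := PI_le' hd ha
  have hh := hd_pos hd ha
  refine ⟨C, hC, N0, fun N hN G hG M hM => h0 N hN G hG M fun y hy => ?_⟩
  rcases hy with h1 | h1
  · exact hM y h1.1 h1.2.ge (by rw [h1.2]; linarith)
  · exact hM y h1.1.le h1.2.1 h1.2.2

theorem PI_out {ρ d : ℝ} (hρ : 0 < ρ) (hρ1 : ρ ≤ 1 / 10) (hd : d = 1 ∨ d = 2) {a : ℕ} (ha : 10 ≤ a) :
    ∃ C : ℝ, 0 < C ∧ ∃ N0 : ℕ, ∀ N : ℕ, N0 ≤ N → ∀ G : ℂ → ℂ, Continuous G → ∀ M : ℝ,
      (∀ y : ℂ, |y.re| ≤ 1 / 2 → ρ / 2 ≤ |y.re| → -(d / a ^ 2) ≤ y.im → y.im ≤ 0 → ‖G y‖ ≤ M) →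
      ‖PI (fun y => om N a y * G y) (d / a ^ 2) -
        ∫ ξ in (-(ρ / 2))..(ρ / 2), om N a (pt ξ (d / a ^ 2)) * G (pt ξ (d / a ^ 2))‖ ≤
          C * Real.exp (N * (Real.pi * d / a)) * M := by
  have hh := hd_pos hd ha
  obtain ⟨N0, hN0⟩ := N0_exists hh
  set h := d / a ^ 2 with hdef
  set K := Real.pi * Real.exp (2 * Real.pi * h) with hK
  refine ⟨(2 * h + 1) * K, by positivity, N0, fun N hN G hG M hM => ?_⟩
  obtain ⟨h1, h2⟩ := hN0 N hN
  have hM0 : 0 ≤ M := (norm_nonneg _).trans (hM (1 / 2) (by norm_num)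
    (by norm_num; linarith) (by simp; exact hh.le) (by simp))
  set E := Real.exp (N * (Real.pi * d / a)) with hE
  have hE0 : 0 < E := Real.exp_pos _
  have hK0 : 0 < K := by positivity
  have side : ∀ x : ℝ, |x| = 1 / 2 → ∀ t : ℝ, -h ≤ t → t ≤ 0 →
      ‖(fun y => om N a y * G y) (x + t * I)‖ ≤ K * E * M := by
    intro x hx t ht1 ht2
    simp only
    rw [norm_mul]
    apply mul_le_mul
    · apply om_side_le ha h1
      · rw [re_pt]; exact hx
      · rw [im_pt]; exact ht1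
      · rw [im_pt]; exact ht2
    · apply hM
      · rw [re_pt]; exact hx.le
      · rw [re_pt, hx]; linarith
      · rw [im_pt]; exact ht1
      · rw [im_pt]; exact ht2
    · exact norm_nonneg _
    · positivity
  have hv1 := ver_le (f := fun y => om N a y * G y) (x := -1 / 2) hh (side _ ab1)
  have hv2 := ver_le (f := fun y => om N a y * G y) (x := 1 / 2) hh (side _ ab2)
  have flat : ∀ x : ℝ, |x| ≤ 1 / 2 → ρ / 2 ≤ |x| →
      ‖(fun y => om N a y * G y) (x + (-h : ℝ) * I)‖ ≤ K * E * M := by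
    intro x hx2 hx3
    simp only
    rw [norm_mul]
    apply mul_le_mul
    · rw [hE, ← exponent_eq ha]
      apply om_le (DN_flat h1 h2 (by rw [im_pt]))
      · rw [re_pt]; exact hx2
      · rw [im_pt]
      · rw [im_pt]; linarith
    · apply hM
      · rw [re_pt]; exact hx2
      · rw [re_pt]; exact hx3
      · rw [im_pt]
      · rw [im_pt]; linarith
    · exact norm_nonneg _
    · positivity
  have hc : ContinuousOn (fun y => om N a y * G y) (PS h) := (om_cont hh).mul hG.continuousOn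
  have hci : ∀ u v : ℝ, |u| ≤ 1 / 2 → |v| ≤ 1 / 2 → IntervalIntegrable
      (fun x : ℝ => (fun y => om N a y * G y) (x + (-h : ℝ) * I)) volume u v := by
    intro u v hu hv
    apply (hor_cont hc _).intervalIntegrable
    intro x hx
    left
    rw [re_pt, im_pt]
    refine ⟨?_, rfl⟩
    rw [Set.mem_uIcc] at hx
    rw [abs_le] at *
    rcases hx with hx | hx <;> constructor <;> linarith [hx.1, hx.2]
  have a1 : |(-1 / 2 : ℝ)| ≤ 1 / 2 := ab1.le
  have a2 : |(1 / 2 : ℝ)| ≤ 1 / 2 := ab2.le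
  have a3 : |-(ρ / 2)| ≤ 1 / 2 := by rw [abs_neg, abs_of_pos (by positivity)]; linarith
  have a4 : |ρ / 2| ≤ 1 / 2 := by rw [abs_of_pos (by positivity)]; linarith
  have s1 := intervalIntegral.integral_add_adjacent_intervals (hci _ _ a1 a3) (hci _ _ a3 a4)
  have s2 := intervalIntegral.integral_add_adjacent_intervals (hci _ _ a1 a4) (hci _ _ a4 a2)
  have L : ‖∫ x in (-1 / 2 : ℝ)..(-(ρ / 2)), (fun y => om N a y * G y) (x + (-h : ℝ) * I)‖ ≤
      K * E * M * (1 / 2) := by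
    have h3 := intervalIntegral.norm_integral_le_of_norm_le_const (a := -1 / 2) (b := -(ρ / 2))
      (f := fun x : ℝ => (fun y => om N a y * G y) (x + (-h : ℝ) * I)) (C := K * E * M) (by
        intro x hx
        rw [uIoc_of_le (by linarith)] at hx
        apply flat
        · rw [abs_le]; exact ⟨by linarith [hx.1], by linarith [hx.2]⟩
        · rw [abs_of_nonpos (by linarith [hx.2])]; linarith [hx.2])
    refine h3.trans ?_
    have : |-(ρ / 2) - -1 / 2| ≤ 1 / 2 := by rw [abs_of_nonneg (by linarith)]; linarith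
    gcongr
  have R : ‖∫ x in (ρ / 2 : ℝ)..(1 / 2), (fun y => om N a y * G y) (x + (-h : ℝ) * I)‖ ≤
      K * E * M * (1 / 2) := by
    have h3 := intervalIntegral.norm_integral_le_of_norm_le_const (a := ρ / 2) (b := 1 / 2)
      (f := fun x : ℝ => (fun y => om N a y * G y) (x + (-h : ℝ) * I)) (C := K * E * M) (by
        intro x hx
        rw [uIoc_of_le (by linarith)] at hx
        apply flat
        · rw [abs_le]; exact ⟨by linarith [hx.1], by linarith [hx.2]⟩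
        · rw [abs_of_nonneg (by linarith [hx.1])]; linarith [hx.1])
    refine h3.trans ?_
    have : |1 / 2 - ρ / 2| ≤ 1 / 2 := by rw [abs_of_nonneg (by linarith)]; linarith
    gcongr
  have hsplit : PI (fun y => om N a y * G y) h -
      ∫ ξ in (-(ρ / 2))..(ρ / 2), om N a (pt ξ h) * G (pt ξ h) =
      -(I * ver (fun y => om N a y * G y) (-1 / 2) (-h) 0) +
        (∫ x in (-1 / 2 : ℝ)..(-(ρ / 2)), (fun y => om N a y * G y) (x + (-h : ℝ) * I)) +
        (∫ x in (ρ / 2 : ℝ)..(1 / 2), (fun y => om N a y * G y) (x + (-h : ℝ) * I)) +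
        I * ver (fun y => om N a y * G y) (1 / 2) (-h) 0 := by
    unfold PI hor
    rw [← s2, ← s1]
    unfold pt
    ring
  rw [hsplit]
  calc _ ≤ ‖-(I * ver (fun y => om N a y * G y) (-1 / 2) (-h) 0)‖ +
        ‖∫ x in (-1 / 2 : ℝ)..(-(ρ / 2)), (fun y => om N a y * G y) (x + (-h : ℝ) * I)‖ +
        ‖∫ x in (ρ / 2 : ℝ)..(1 / 2), (fun y => om N a y * G y) (x + (-h : ℝ) * I)‖ +
        ‖I * ver (fun y => om N a y * G y) (1 / 2) (-h) 0‖ := norm_add₄_le
    _ ≤ K * E * M * h + K * E * M * (1 / 2) + K * E * M * (1 / 2) + K * E * M * h := by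
        rw [norm_neg, norm_mul, norm_mul, Complex.norm_I, one_mul, one_mul]
        exact add_le_add (add_le_add (add_le_add hv1 L) R) hv2
    _ = (2 * h + 1) * K * E * M := by ring

end Pool.Agent.Helper9.TF
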