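import Pool.Agent.Helper6.TF.DN

/-!
# The entries of the powers of the half twist
-/

namespace Pool.Agent.Helper9.TF

open Complex Finset MeasureTheory intervalIntegral
open Pool.Agent.Helper9.TB

lemma prod_sb {n : ℕ} : ∏ j ∈ range n, sb ((j + 1 : ℕ) / (n + 1 : ℕ)) = ((n + 1 : ℕ) : ℝ) := by
  have hζ := Complex.isPrimitiveRoot_exp (n + 1) (by omega)
  have h := hζ.prod_one_sub_pow_eq_order
  have h1 := congrArg norm h
  rw [norm_prod] at h1
  have h2 : ∀ k ∈ range n, ‖1 - Complex.exp (2 * Real.pi * I / (n + 1 : ℕ)) ^ (k + 1)‖ =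
      sb ((k + 1 : ℕ) / (n + 1 : ℕ)) := by
    intro k hk
    rw [mem_range] at hk
    rw [norm_sub_rev, ← Complex.exp_nat_mul]
    have e : ((k + 1 : ℕ) : ℂ) * (2 * Real.pi * I / (n + 1 : ℕ)) =
        I * ((2 * (Real.pi * ((k + 1 : ℕ) / (n + 1 : ℕ))) : ℝ) : ℂ) := by
      push_cast; ring
    rw [e, Complex.norm_exp_I_mul_ofReal_sub_one, mul_div_cancel_left₀ _ (two_ne_zero)]
    have h3 : 0 < sb ((k + 1 : ℕ) / (n + 1 : ℕ)) := by
      apply sb_pos
      · positivity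
      · rw [div_lt_one (by positivity)]
        exact_mod_cast (by omega : k + 1 < n + 1)
    rw [Real.norm_of_nonneg]
    · rfl
    · exact h3.le
  rw [prod_congr rfl h2] at h1
  rw [h1]
  rw [show ((n : ℂ) + 1) = ((n + 1 : ℕ) : ℂ) by push_cast; rfl, Complex.norm_natCast]

lemma sb_one_sub (x : ℝ) : sb (1 - x) = sb x := by
  unfold sb
  rw [mul_sub, mul_one, Real.sin_pi_sub]

/-- `sf N l * sf N (N - 1 - l) = N` -/
lemma sf_mul_sf {N l : ℕ} (hl : l < N) : sf N l * sf N (N - 1 - l) = N := by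
  obtain ⟨n, rfl⟩ : ∃ n, N = n + 1 := ⟨N - 1, by omega⟩
  obtain ⟨d, rfl⟩ : ∃ d, n = l + d := ⟨n - l, by omega⟩
  rw [show l + d + 1 - 1 - l = d by omega]
  have h := prod_sb (n := l + d)
  rw [prod_range_add] at h
  have hN : ((l + d + 1 : ℕ) : ℝ) ≠ 0 := by positivity
  have key : ∏ j ∈ range d, sb ((j + 1 : ℕ) / (l + d + 1 : ℕ)) =
      ∏ x ∈ range d, sb ((l + x + 1 : ℕ) / (l + d + 1 : ℕ)) := by
    rw [← prod_range_reflect]
    apply prod_congr rfl
    intro j hj
    rw [mem_range] at hj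
    rw [← sb_one_sub]
    congr 1
    have e : ((d - 1 - j + 1 : ℕ) : ℝ) = d - j := by
      rw [show d - 1 - j + 1 = d - j by omega, Nat.cast_sub hj.le]
    rw [e]
    field_simp
    push_cast
    ring
  unfold sf
  rw [key, h]

lemma lam_reflect {N k : ℕ} (hk : k < N) : lam N (N - 1 - k) = lam N k := by
  unfold lam lamR
  have hN : (N : ℝ) ≠ 0 := by
    have : 0 < N := by omega
    positivity
  have e : Real.pi * ((2 * ((N - 1 - k : ℕ) : ℝ) + 1) / N) =
      2 * Real.pi - Real.pi * ((2 * k + 1) / N) := by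
    rw [Nat.sub_sub, Nat.cast_sub (by omega)]
    field_simp
    push_cast
    ring
  rw [e, Real.cos_two_pi_sub]

lemma prod_tail {N m : ℕ} (hm : m ≤ N) (y : ℂ) :
    ∏ k ∈ Ico m N, (Ly y - lam N k) = ∏ k ∈ range (N - m), (Ly y - lam N k) := by
  rw [prod_Ico_eq_prod_range, ← prod_range_reflect]
  apply prod_congr rfl
  intro j hj
  rw [mem_range] at hj
  rw [← lam_reflect (show m + (N - m - 1 - j) < N by omega)]
  congr 3
  omega

lemma Ly_sub_lam (N k : ℕ) (y : ℂ) : Ly y - lam N k =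
    -(4 * Complex.cos (Real.pi * (y + xk N k)) * Complex.cos (Real.pi * (y - xk N k))) := by
  have h := Complex.cos_add_cos (2 * Real.pi * y) (Real.pi * ((2 * k + 1) / N))
  have e1 : (2 * Real.pi * y + Real.pi * ((2 * k + 1) / N)) / 2 = Real.pi * (y + xk N k) := by
    unfold xk
    rcases eq_or_ne N 0 with hN | hN
    · subst hN; simp; ring
    · have : (N : ℂ) ≠ 0 := by exact_mod_cast hN
      push_cast
      field_simp
  have e2 : (2 * Real.pi * y - Real.pi * ((2 * k + 1) / N)) / 2 = Real.pi * (y - xk N k) := by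
    unfold xk
    rcases eq_or_ne N 0 with hN | hN
    · subst hN; simp; ring
    · have : (N : ℂ) ≠ 0 := by exact_mod_cast hN
      push_cast
      field_simp
  rw [e1, e2] at h
  unfold Ly lam lamR
  push_cast
  linear_combination (-2 : ℂ) * h

/-- the products in terms of `gm` -/
lemma prod_gm {N m : ℕ} (hm : m < N) (y : ℂ) :
    ∏ k ∈ range m, (Ly y - lam N k) = (-1) ^ m * gm N m y * ((sf N m : ℝ) : ℂ) ^ 2 := by
  have h1 : ((sf N m : ℝ) : ℂ) ≠ 0 := by
    have : (0 : ℝ) < sf N m := sf_pos (by exact_mod_cast hm)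
    exact_mod_cast this.ne'
  unfold gm
  rw [mul_assoc, div_mul_cancel₀ _ (pow_ne_zero 2 h1), prod_congr rfl (fun k _ => Ly_sub_lam N k y)]
  rw [prod_neg]
  simp

lemma DN_split {N m l : ℕ} (hml : m ≤ l + 1) (hl : l < N) (y : ℂ) :
    DN N y = (∏ k ∈ range m, (Ly y - lam N k)) * (∏ k ∈ Ico m (l + 1), (Ly y - lam N k)) *
      ∏ k ∈ range (N - 1 - l), (Ly y - lam N k) := by
  unfold DN
  have h1 : N - 1 - l = N - (l + 1) := by omega
  rw [h1, ← prod_tail (by omega), prod_range_mul_prod_Ico _ hml, prod_range_mul_prod_Ico _ hl]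

lemma prod_bb {N : ℕ} (m n : ℕ) (hmn : m + n < N) :
    ∏ k ∈ Ico (m + 1) (m + n + 1), bb N k =
      (-1) ^ n * (((sf N (m + n) : ℝ) : ℂ) / ((sf N m : ℝ) : ℂ)) ^ 2 := by
  have h1 : ((sf N m : ℝ) : ℂ) ≠ 0 := by
    have : (0 : ℝ) < sf N m := sf_pos (by exact_mod_cast (by omega : m < N))
    exact_mod_cast this.ne'
  have h2 : sf N (m + n) = sf N m * ∏ k ∈ range n, sb ((m + k + 1 : ℕ) / N) := by
    unfold sf
    rw [prod_range_add]
  rw [h2]
  push_cast
  rw [mul_div_cancel_left₀ _ h1, ← prod_pow, prod_Ico_eq_prod_range,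
    show m + n + 1 - (m + 1) = n by omega]
  have h3 : ∀ k, bb N (m + 1 + k) = (-1) * ((sb ((m + k + 1 : ℕ) / N) : ℝ) : ℂ) ^ 2 := by
    intro k
    unfold bb
    rw [show m + 1 + k = m + k + 1 by ring]
    push_cast
    ring
  rw [prod_congr rfl (fun k _ => h3 k), prod_mul_distrib, prod_const, card_range]
  push_cast
  rfl

lemma om_eq_of_ne {N a : ℕ} {y : ℂ} : om N a y =
    Complex.exp (Real.pi * I * (a * N) * y ^ 2) * (dLy y / DN N y) := by
  unfold om; rw [mul_div_assoc]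

lemma DN_ne {N : ℕ} {h : ℝ} (hh : 0 < h) {y : ℂ} (hy : y ∈ PS h) : DN N y ≠ 0 := by
  unfold DN
  rw [prod_ne_zero_iff]
  intro k hk
  rw [mem_range] at hk
  exact Ly_ne (M := N) (N := N) (by linarith) hk hh hy

/-- integral of an entire function over the lower path -/
lemma PI_entire {F : ℂ → ℂ} (hF : Differentiable ℂ F) {h : ℝ} :
    PI F h = hor F (-1 / 2) (1 / 2) 0 := by
  have h1 := integral_boundary_rect_eq_zero_of_differentiableOn F
    (((-1 / 2 : ℝ) : ℂ) + ((-h : ℝ) : ℂ) * I) (((1 / 2 : ℝ) : ℂ) + ((0 : ℝ) : ℂ) * I)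
    hF.differentiableOn
  rw [re_pt, re_pt, im_pt, im_pt] at h1
  unfold PI hor ver
  simp only [smul_eq_mul] at h1
  linear_combination h1

lemma PI_odd {F : ℂ → ℂ} (hF : Differentiable ℂ F) (hodd : ∀ y, F (-y) = - F y) {h : ℝ} :
    PI F h = 0 := by
  rw [PI_entire hF]
  unfold hor
  have h1 := intervalIntegral.integral_comp_neg (a := -1 / 2) (b := 1 / 2)
    (fun x : ℝ => F (x + (0 : ℝ) * I))
  rw [show (-(1 / 2) : ℝ) = -1 / 2 by ring, show (-(-1 / 2) : ℝ) = 1 / 2 by ring] at h1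
  have h2 : ∫ x in (-1 / 2 : ℝ)..(1 / 2), F (((-x : ℝ) : ℂ) + (0 : ℝ) * I) =
      - ∫ x in (-1 / 2 : ℝ)..(1 / 2), F ((x : ℂ) + (0 : ℝ) * I) := by
    rw [← intervalIntegral.integral_neg]
    apply intervalIntegral.integral_congr
    intro x _
    simp only
    rw [← hodd]
    congr 1
    push_cast
    ring
  rw [h2] at h1
  have h3 : (2 : ℂ) * ∫ x in (-1 / 2 : ℝ)..(1 / 2), F ((x : ℂ) + (0 : ℝ) * I) = 0 := by
    linear_combination -h1
  rcases mul_eq_zero.mp h3 with h4 | h4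
  · norm_num at h4
  · exact h4

lemma neg_one_pow_sq (n : ℕ) : ((-1 : ℂ) ^ n) * (-1) ^ n = 1 := by
  rw [← mul_pow]; simp

/-- the entries of the powers of the half twist -/
theorem AM_entry {N : ℕ} {h : ℝ} (hh : 0 < h) (a : ℕ) (l m : Fin N) :
    2 * Real.pi * I * (cM N ^ a * (AM N N ^ a) l m) =
      (-1) ^ (N - 1) * N ^ 2 * PI (fun y => om N a y * (gm N m y * gm N (N - 1 - l) y)) h := by
  have hlN := l.2
  have hmN := m.2
  have s0 : ∀ k : ℕ, k < N → ((sf N k : ℝ) : ℂ) ≠ 0 := by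
    intro k hk
    have : (0 : ℝ) < sf N k := sf_pos (by exact_mod_cast hk)
    exact_mod_cast this.ne'
  have hlc : N - 1 - (l : ℕ) < N := by omega
  have sN : ((sf N l : ℝ) : ℂ) * ((sf N (N - 1 - l) : ℝ) : ℂ) = N := by
    rw [← Complex.ofReal_mul, sf_mul_sf hlN]; simp
  rcases Nat.lt_or_ge (l : ℕ) (m : ℕ) with hlm | hml
  · -- both sides vanish
    have hz : (AM N N ^ a) l m = 0 := by
      have hLT : LT (AM N N) (mu N) := AM_LT (by linarith)
      exact (hLT.pow a).1 l m hlm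
    rw [hz, mul_zero, mul_zero]
    have hsp : ∀ y, (∏ k ∈ range m, (Ly y - lam N k)) * ∏ k ∈ range (N - 1 - l), (Ly y - lam N k) =
        DN N y * ∏ k ∈ Ico ((l : ℕ) + 1) (m : ℕ), (Ly y - lam N k) := by
      intro y
      have e1 := DN_split (le_refl ((l : ℕ) + 1)) hlN y
      rw [Ico_self, prod_empty, mul_one] at e1
      rw [e1, ← prod_range_mul_prod_Ico _ (show (l : ℕ) + 1 ≤ (m : ℕ) by omega)]
      ring
    set c : ℂ := (-1) ^ (m : ℕ) * (-1) ^ (N - 1 - (l : ℕ)) /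
      (((sf N m : ℝ) : ℂ) ^ 2 * ((sf N (N - 1 - l) : ℝ) : ℂ) ^ 2) with hc
    have hcong : PI (fun y => om N a y * (gm N m y * gm N (N - 1 - l) y)) h =
        PI (fun y => Complex.exp (Real.pi * I * (a * N) * y ^ 2) * dLy y *
          (c * ∏ k ∈ Ico ((l : ℕ) + 1) (m : ℕ), (Ly y - lam N k))) h := by
      apply PI_congr hh.le
      intro y hy
      have hD := DN_ne (N := N) hh hy
      have g1 := prod_gm hmN y
      have g2 := prod_gm hlc y
      have g3 := hsp y
      have m1 := neg_one_pow_sq (m : ℕ)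
      have m2 := neg_one_pow_sq (N - 1 - (l : ℕ))
      have z1 := s0 m hmN
      have z2 := s0 _ hlc
      have g4 : gm N m y * gm N (N - 1 - l) y = c * (DN N y * ∏ k ∈ Ico ((l : ℕ) + 1) m, (Ly y - lam N k)) := by
        rw [← g3, g1, g2, hc]
        field_simp
        linear_combination (-gm N m y * gm N (N - 1 - l) y) * m1 * 1 -
          (gm N m y * gm N (N - 1 - l) y) * ((-1) ^ (m : ℕ) * (-1) ^ (m : ℕ)) * m2
      rw [g4, om]
      field_simp
    rw [hcong, PI_odd]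
    · ring
    · unfold dLy Ly
      fun_prop
    · intro y
      unfold dLy Ly
      simp only [mul_neg, neg_mul, Complex.cos_neg, Complex.sin_neg, even_two.neg_pow]
  · obtain ⟨n, hn⟩ := Nat.exists_eq_add_of_le hml
    have hmn : (m : ℕ) + n < N := by omega
    have hA := AN_pow_PI hh a n m hmn
    have e1 : (⟨(m : ℕ) + n, hmn⟩ : Fin N) = l := Fin.ext hn.symm
    have e2 : (⟨(m : ℕ), by omega⟩ : Fin N) = m := Fin.ext rfl
    rw [e1, e2] at hA
    rw [hA, prod_bb _ _ hmn, ← PI_mul, ← PI_mul]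
    apply PI_congr hh.le
    intro y hy
    have hD := DN_ne (N := N) hh hy
    have hsplit := DN_split (m := m) (l := l) (by omega) hlN y
    have g1 := prod_gm hmN y
    have g2 := prod_gm hlc y
    have z1 := s0 m hmN
    have z2 := s0 _ hlc
    rw [g1, g2] at hsplit
    have hI : ∏ k ∈ Ico (m : ℕ) (l + 1), (Ly y - lam N k) ≠ 0 := by
      intro h0
      rw [h0] at hsplit
      apply hD
      rw [hsplit]; ring
    unfold GG KR
    rw [om_eq_of_ne, show (m : ℕ) + n + 1 = l + 1 by omega, show (m : ℕ) + n = l by omega]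
    have hsgn : ((-1 : ℂ)) ^ (N - 1) = (-1) ^ n * (-1) ^ (m : ℕ) * (-1) ^ (N - 1 - (l : ℕ)) := by
      rw [← pow_add, ← pow_add]; congr 1; omega
    have hgm : gm N m y ≠ 0 := by
      intro h0
      rw [h0] at hsplit
      apply hD
      rw [hsplit]; ring
    have hgm2 : gm N (N - 1 - l) y ≠ 0 := by
      intro h0
      rw [h0] at hsplit
      apply hD
      rw [hsplit]; ring
    have hN2 : (N : ℂ) ^ 2 = (((sf N l : ℝ) : ℂ) * ((sf N (N - 1 - l) : ℝ) : ℂ)) ^ 2 := by rw [sN]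
    rw [hsplit, hsgn, hN2]
    have p1 : ((-1 : ℂ)) ^ (m : ℕ) ≠ 0 := by simp
    have p2 : ((-1 : ℂ)) ^ (N - 1 - (l : ℕ)) ≠ 0 := by simp
    push_cast
    field_simp

end Pool.Agent.Helper9.TF
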