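import Mathlib
import Pool.Agent.Helper9.TF.Defs

/-!
# The closed form of `DN` and lower bounds
-/

namespace Pool.Agent.Helper9.TF

open Complex Finset
open Pool.Agent.Helper9.TB

lemma lam_eq {N : ℕ} (hN : 1 ≤ N) (k : ℕ) : lam N k =
    Complex.exp (2 * Real.pi * I / N) ^ k * Complex.exp (Real.pi * I / N) +
      (Complex.exp (2 * Real.pi * I / N))⁻¹ ^ k * (Complex.exp (Real.pi * I / N))⁻¹ := by
  have hN0 : (N : ℂ) ≠ 0 := by exact_mod_cast (by omega : N ≠ 0)
  unfold lam lamR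
  rw [← Complex.exp_neg, ← Complex.exp_neg, ← Complex.exp_nat_mul, ← Complex.exp_nat_mul,
    ← Complex.exp_add, ← Complex.exp_add]
  push_cast
  rw [Complex.cos]
  have e1 : (k : ℂ) * (2 * Real.pi * I / N) + Real.pi * I / N = Real.pi * ((2 * k + 1) / N) * I := by
    field_simp
  have e2 : (k : ℂ) * -(2 * Real.pi * I / N) + -(Real.pi * I / N) =
      -(Real.pi * ((2 * k + 1) / N)) * I := by
    field_simp
    ring
  rw [e1, e2]
  ring

lemma prod_nodes {N : ℕ} (hN : 1 ≤ N) (z : ℂ) :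
    ∏ k ∈ range N, (z - Complex.exp (2 * Real.pi * I / N) ^ k * Complex.exp (Real.pi * I / N)) =
      z ^ N + 1 := by
  have hN0 : (N : ℂ) ≠ 0 := by exact_mod_cast (by omega : N ≠ 0)
  have hζ := Complex.isPrimitiveRoot_exp N (by omega)
  have e : Complex.exp (Real.pi * I / N) ^ N = -1 := by
    rw [← Complex.exp_nat_mul, mul_div_cancel₀ _ hN0, Complex.exp_pi_mul_I]
  have h := X_pow_sub_C_eq_prod hζ (α := Complex.exp (Real.pi * I / N)) (a := -1) (by omega) e
  have h1 := congrArg (Polynomial.eval z) h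
  simp only [Polynomial.eval_sub, Polynomial.eval_pow, Polynomial.eval_X, Polynomial.eval_C,
    Polynomial.eval_prod, sub_neg_eq_add] at h1
  exact h1.symm

lemma prod_nodes' {N : ℕ} (hN : 1 ≤ N) (z : ℂ) :
    ∏ k ∈ range N, (z - (Complex.exp (2 * Real.pi * I / N))⁻¹ ^ k *
      (Complex.exp (Real.pi * I / N))⁻¹) = z ^ N + 1 := by
  have hN0 : (N : ℂ) ≠ 0 := by exact_mod_cast (by omega : N ≠ 0)
  have hζ := (Complex.isPrimitiveRoot_exp N (by omega)).inv
  have e : (Complex.exp (Real.pi * I / N))⁻¹ ^ N = -1 := by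
    rw [inv_pow, ← Complex.exp_nat_mul, mul_div_cancel₀ _ hN0, Complex.exp_pi_mul_I]
    norm_num
  have h := X_pow_sub_C_eq_prod hζ (α := (Complex.exp (Real.pi * I / N))⁻¹) (a := -1) (by omega) e
  have h1 := congrArg (Polynomial.eval z) h
  simp only [Polynomial.eval_sub, Polynomial.eval_pow, Polynomial.eval_X, Polynomial.eval_C,
    Polynomial.eval_prod, sub_neg_eq_add] at h1
  exact h1.symm

lemma prod_sub_lam {N : ℕ} (hN : 1 ≤ N) {z : ℂ} (hz : z ≠ 0) :
    ∏ k ∈ range N, (z + z⁻¹ - lam N k) = z ^ N + 2 + z⁻¹ ^ N := by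
  have h1 : ∀ k, z + z⁻¹ - lam N k = z⁻¹ *
      ((z - Complex.exp (2 * Real.pi * I / N) ^ k * Complex.exp (Real.pi * I / N)) *
      (z - (Complex.exp (2 * Real.pi * I / N))⁻¹ ^ k * (Complex.exp (Real.pi * I / N))⁻¹)) := by
    intro k
    rw [lam_eq hN]
    have h2 : (Complex.exp (2 * Real.pi * I / N) ^ k * Complex.exp (Real.pi * I / N)) *
      ((Complex.exp (2 * Real.pi * I / N))⁻¹ ^ k * (Complex.exp (Real.pi * I / N))⁻¹) = 1 := by
      rw [inv_pow, ← mul_inv]
      exact mul_inv_cancel₀ (mul_ne_zero (pow_ne_zero _ (Complex.exp_ne_zero _))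
        (Complex.exp_ne_zero _))
    set A := Complex.exp (2 * Real.pi * I / N) ^ k * Complex.exp (Real.pi * I / N)
    set B := (Complex.exp (2 * Real.pi * I / N))⁻¹ ^ k * (Complex.exp (Real.pi * I / N))⁻¹
    field_simp
    linear_combination -h2
  rw [prod_congr rfl (fun k _ => h1 k), prod_mul_distrib, prod_mul_distrib, prod_nodes hN,
    prod_nodes' hN, prod_const, card_range, inv_pow]
  have hzN : z ^ N ≠ 0 := pow_ne_zero _ hz
  field_simp
  ring

/-- the closed form -/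
theorem DN_eq {N : ℕ} (hN : 1 ≤ N) (y : ℂ) :
    DN N y = 2 + (-1) ^ N * (2 * Complex.cos (2 * Real.pi * N * y)) := by
  unfold DN
  have hz : -Complex.exp (2 * Real.pi * y * I) ≠ 0 := neg_ne_zero.2 (Complex.exp_ne_zero _)
  have hL : Ly y = -Complex.exp (2 * Real.pi * y * I) + (-Complex.exp (2 * Real.pi * y * I))⁻¹ := by
    unfold Ly
    rw [Complex.cos, inv_neg, ← Complex.exp_neg]
    ring_nf
  rw [hL, prod_sub_lam hN hz, inv_neg, ← Complex.exp_neg, neg_pow, neg_pow (Complex.exp _) N,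
    ← Complex.exp_nat_mul, ← Complex.exp_nat_mul, Complex.cos]
  have e1 : (N : ℂ) * (2 * Real.pi * y * I) = 2 * Real.pi * N * y * I := by ring
  have e2 : (N : ℂ) * -(2 * Real.pi * y * I) = -(2 * Real.pi * N * y) * I := by ring
  rw [e1, e2]
  ring

end Pool.Agent.Helper9.TF
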